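import Pool.Agent.MWS.StmtsW

namespace Pool.Agent.MWS.H97

open Pool.Agent.Helper14_MV Pool.Agent.Helper2_MV Pool.Agent.MVO Pool.Agent.MWL

theorem two_aux {β : FIC} (h : ClX β) (q : List ℕ) (x : ℕ) :
    RR β ([x] ++ (q ++ [x])) ([x] ++ ([x] ++ (q ++ ([x] ++ [x])))) ∧
      RR β ([x] ++ [x]) ([x] ++ ([x] ++ [x])) := by
  constructor
  · have h1 := h.be.sub (fun i => if i = 0 then [x] else q)
    simpa using h1
  · have h1 := h.ap.sub (fun _ => [x])
    simpa using h1

theorem dbl_left {β : FIC} (h : ClX β) (q : List ℕ) (x : ℕ) :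
    RR β ([x] ++ (q ++ [x])) ([x] ++ ([x] ++ (q ++ [x]))) := by
  obtain ⟨h1, h2⟩ := two_aux h q x
  have e1 := (RR.refl (β := β) [x]).append h1
  have e2 := h2.append (RR.refl (β := β) (q ++ ([x] ++ [x])))
  simp only [List.append_assoc] at e1 e2 h1
  exact β.trans h1 (β.trans e2 (RR.symm e1))

theorem dbl_right {β : FIC} (h : ClX β) (q : List ℕ) (x : ℕ) :
    RR β ([x] ++ (q ++ [x])) ([x] ++ (q ++ ([x] ++ [x]))) := by
  obtain ⟨h1, h2⟩ := two_aux h q x
  have e1 := h1.append (RR.refl (β := β) [x])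
  have e2 := (RR.refl (β := β) ([x] ++ ([x] ++ q))).append h2
  simp only [List.append_assoc] at e1 e2 h1
  exact β.trans h1 (β.trans e2 (RR.symm e1))

theorem dbl {β : FIC} (h : ClX β) (p q : List ℕ) (x : ℕ) (hx : x ∈ p ∨ x ∈ q) :
    RR β (p ++ x :: q) (p ++ x :: x :: q) := by
  rcases hx with hx | hx
  · obtain ⟨p1, p2, rfl⟩ := List.append_of_mem hx
    have e := ((RR.refl (β := β) p1).append (dbl_right h p2 x)).append (RR.refl (β := β) q)
    simpa using e
  · obtain ⟨q1, q2, rfl⟩ := List.append_of_mem hx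
    have e := ((RR.refl (β := β) p).append (dbl_left h q1 x)).append (RR.refl (β := β) q2)
    simpa using e

theorem idx : IdxStmt := by
  intro β h p q x hx n hn
  induction n, hn using Nat.le_induction with
  | base => exact RR.refl _
  | succ n hn ih =>
    refine β.trans ih ?_
    obtain ⟨m, rfl⟩ : ∃ m, n = m + 1 := ⟨n - 1, by omega⟩
    have e := dbl h p (List.replicate m x ++ q) x
      (hx.imp id fun h' => List.mem_append_right _ h')
    rw [List.replicate_succ, List.replicate_succ]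
    exact e

end Pool.Agent.MWS.H97
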